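import Mathlib
import Pool.Agent.Helper608.Brouwer

/-!
# Elementary transitivity fails over graded subalgebras of Laurent polynomial rings (MP_aa4be7_al)

For every `n ≥ 3` the universal unimodular row algebra
`A = ℝ[x₁,…,xₙ,y₁,…,yₙ]/(∑ xᵢ yᵢ - 1)`, graded by `deg xᵢ = 1`, `deg yᵢ = -1`, is a graded
`ℝ`-subalgebra of a Laurent polynomial ring over the field `ℝ` (all variables of degree one), and
its unimodular row `(x₁,…,xₙ)` is not the first row of an elementary matrix.
-/

open MvPolynomial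

namespace Pool.Agent.Results.MP_aa4be7_al.UniversalRow

/-- The Laurent polynomial ring `R[X₁^{±1},…,X_m^{±1}]`, as the group algebra of `ℤ^m`. -/
abbrev Laurent (R : Type*) [CommRing R] (m : ℕ) : Type _ := AddMonoidAlgebra R (Fin m → ℤ)

/-- The Laurent monomial `X₁^{a₁} ⋯ X_m^{a_m}`. -/
noncomputable def mono (R : Type*) [CommRing R] {m : ℕ} (a : Fin m → ℤ) : Laurent R m :=
  AddMonoidAlgebra.single a 1

/-- The degree `k` component `L_k`: the `R`-span of the Laurent monomials of total degree `k`. -/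
noncomputable def degComp (R : Type*) [CommRing R] (m : ℕ) (k : ℤ) : Submodule R (Laurent R m) :=
  Submodule.span R {f | ∃ a : Fin m → ℤ, ∑ i, a i = k ∧ f = mono R a}

/-- `A` is a graded subalgebra: it is the sum of its intersections with the components `L_k`
(the sum is automatically direct). -/
def IsGraded {R : Type*} [CommRing R] {m : ℕ} (A : Subalgebra R (Laurent R m)) : Prop :=
  Subalgebra.toSubmodule A = ⨆ k : ℤ, (Subalgebra.toSubmodule A ⊓ degComp R m k)

/-- Unimodular rows. -/
def IsUnimodular {A : Type*} [CommRing A] {n : ℕ} (v : Fin n → A) : Prop :=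
  ∃ w : Fin n → A, ∑ i, v i * w i = 1

/-- The group `E_n(A)` generated by the elementary matrices `I + c e_{ij}`, `i ≠ j`. -/
def elemGroup (n : ℕ) (A : Type*) [CommRing A] : Subgroup (GL (Fin n) A) :=
  Subgroup.closure {g | ∃ i j : Fin n, i ≠ j ∧ ∃ c : A,
    (g : Matrix (Fin n) (Fin n) A) = Matrix.transvection i j c}

/-- `v` is the first row of a matrix in `E_n(A)`, that is `v ∈ e₁ E_n(A)`. -/
def IsElemRow {A : Type*} [CommRing A] {n : ℕ} (hn : 0 < n) (v : Fin n → A) : Prop :=
  ∃ g ∈ elemGroup n A, (g : Matrix (Fin n) (Fin n) A) ⟨0, hn⟩ = v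

/-- All entries of `v` are homogeneous of degree `k`. -/
def IsHomogRow {R : Type*} [CommRing R] {m n : ℕ} {A : Subalgebra R (Laurent R m)} (k : ℤ)
    (v : Fin n → A) : Prop :=
  ∀ i, (v i : Laurent R m) ∈ degComp R m k

section construction

variable (n : ℕ) (hn : 0 < n)

/-- the elements `x i` -/
noncomputable def xx (i : Fin n) : Laurent ℝ (n + n) := mono ℝ (Pi.single (Fin.castAdd n i) 1)

/-- the elements `y i` for `i ≠ 0` -/
noncomputable def yy' (i : Fin n) : Laurent ℝ (n + n) := mono ℝ (Pi.single (Fin.natAdd n i) (-1))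

/-- the elements `y i` -/
noncomputable def yy (i : Fin n) : Laurent ℝ (n + n) :=
  if i = ⟨0, hn⟩ then mono ℝ (Pi.single (Fin.castAdd n i) (-1)) *
    (1 - ∑ j ∈ Finset.univ.erase (⟨0, hn⟩ : Fin n), xx n j * yy' n j) else yy' n i

lemma mono_mul {m : ℕ} (a b : Fin m → ℤ) : mono ℝ a * mono ℝ b = mono ℝ (a + b) := by
  simp [mono, AddMonoidAlgebra.single_mul_single]

lemma mono_zero {m : ℕ} : mono ℝ (0 : Fin m → ℤ) = 1 := rfl

lemma sum_xy : ∑ i, xx n i * yy n hn i = 1 := by
  classical
  rw [← Finset.add_sum_erase _ _ (Finset.mem_univ (⟨0, hn⟩ : Fin n))]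
  have h1 : xx n ⟨0, hn⟩ * yy n hn ⟨0, hn⟩ =
      1 - ∑ j ∈ Finset.univ.erase (⟨0, hn⟩ : Fin n), xx n j * yy' n j := by
    rw [yy, if_pos rfl, ← mul_assoc]
    have : xx n ⟨0, hn⟩ * mono ℝ (Pi.single (Fin.castAdd n ⟨0, hn⟩) (-1)) = 1 := by
      rw [xx, mono_mul, ← Pi.single_add]
      simp [mono_zero]
    rw [this, one_mul]
  rw [h1]
  have h2 : ∑ j ∈ Finset.univ.erase (⟨0, hn⟩ : Fin n), xx n j * yy n hn j =
      ∑ j ∈ Finset.univ.erase (⟨0, hn⟩ : Fin n), xx n j * yy' n j := by
    refine Finset.sum_congr rfl fun j hj => ?_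
    rw [yy, if_neg (Finset.ne_of_mem_erase hj)]
  rw [h2]; ring

/-- the presentation map -/
noncomputable def phi : MvPolynomial (Fin n ⊕ Fin n) ℝ →ₐ[ℝ] Laurent ℝ (n + n) :=
  aeval (Sum.elim (xx n) (yy n hn))

/-- the algebra `A` -/
noncomputable def AA : Subalgebra ℝ (Laurent ℝ (n + n)) := (phi n hn).range

lemma mono_mem {m : ℕ} (a : Fin m → ℤ) : mono ℝ a ∈ degComp ℝ m (∑ i, a i) :=
  Submodule.subset_span ⟨a, rfl, rfl⟩

lemma degComp_mul {m : ℕ} {k l : ℤ} {f g : Laurent ℝ m} (hf : f ∈ degComp ℝ m k)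
    (hg : g ∈ degComp ℝ m l) : f * g ∈ degComp ℝ m (k + l) := by
  have h : degComp ℝ m k * degComp ℝ m l ≤ degComp ℝ m (k + l) := by
    rw [degComp, degComp, Submodule.span_mul_span]
    refine Submodule.span_le.2 ?_
    rintro _ ⟨f, ⟨a, ha, rfl⟩, g, ⟨b, hb, rfl⟩, rfl⟩
    simp only [mono_mul]
    have := mono_mem (a + b)
    simp only [Pi.add_apply, Finset.sum_add_distrib, ha, hb] at this
    exact this
  exact h (Submodule.mul_mem_mul hf hg)

lemma one_mem_degComp {m : ℕ} : (1 : Laurent ℝ m) ∈ degComp ℝ m 0 := by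
  have := mono_mem (0 : Fin m → ℤ)
  simpa [mono_zero] using this

lemma xx_mem (i : Fin n) : xx n i ∈ degComp ℝ (n + n) 1 := by
  have := mono_mem (Pi.single (Fin.castAdd n i) 1 : Fin (n + n) → ℤ)
  rwa [Finset.sum_pi_single', if_pos (Finset.mem_univ _)] at this

lemma yy'_mem (i : Fin n) : yy' n i ∈ degComp ℝ (n + n) (-1) := by
  have := mono_mem (Pi.single (Fin.natAdd n i) (-1) : Fin (n + n) → ℤ)
  rwa [Finset.sum_pi_single', if_pos (Finset.mem_univ _)] at this

lemma yy_mem (i : Fin n) : yy n hn i ∈ degComp ℝ (n + n) (-1) := by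
  rw [yy]
  split_ifs
  · have h1 : mono ℝ (Pi.single (Fin.castAdd n i) (-1)) ∈ degComp ℝ (n + n) (-1) := by
      have := mono_mem (Pi.single (Fin.castAdd n i) (-1) : Fin (n + n) → ℤ)
      rwa [Finset.sum_pi_single', if_pos (Finset.mem_univ _)] at this
    have h2 : (1 - ∑ j ∈ Finset.univ.erase (⟨0, hn⟩ : Fin n), xx n j * yy' n j) ∈
        degComp ℝ (n + n) 0 := by
      refine Submodule.sub_mem _ one_mem_degComp (Submodule.sum_mem _ fun j _ => ?_)
      have := degComp_mul (xx_mem n j) (yy'_mem n j)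
      simpa using this
    have := degComp_mul h1 h2
    simpa using this
  · exact yy'_mem n i

lemma AA_graded : IsGraded (AA n hn) := by
  rw [IsGraded]
  refine le_antisymm ?_ (iSup_le fun k => inf_le_left)
  have hA : AA n hn = Algebra.adjoin ℝ (Set.range (Sum.elim (xx n) (yy n hn))) := by
    rw [AA, phi, Algebra.adjoin_range_eq_range_aeval]
  have hsp : Subalgebra.toSubmodule (AA n hn) = Submodule.span ℝ
      (Submonoid.closure (Set.range (Sum.elim (xx n) (yy n hn))) : Set (Laurent ℝ (n + n))) := by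
    rw [hA, Algebra.adjoin_eq_span]
  rw [hsp, Submodule.span_le, ← hsp]
  intro f hf
  have key : f ∈ AA n hn ∧ ∃ k, f ∈ degComp ℝ (n + n) k := by
    refine Submonoid.closure_induction (motive := fun f _ => f ∈ AA n hn ∧
      ∃ k, f ∈ degComp ℝ (n + n) k) ?_ ?_ ?_ hf
    · rintro _ ⟨i | i, rfl⟩
      · refine ⟨by rw [hA]; exact Algebra.subset_adjoin ⟨Sum.inl i, rfl⟩, 1, xx_mem n i⟩
      · refine ⟨by rw [hA]; exact Algebra.subset_adjoin ⟨Sum.inr i, rfl⟩, -1, yy_mem n hn i⟩
    · exact ⟨one_mem _, 0, one_mem_degComp⟩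
    · rintro x y _ _ ⟨hx, k, hxk⟩ ⟨hy, l, hyl⟩
      exact ⟨mul_mem hx hy, k + l, degComp_mul hxk hyl⟩
  obtain ⟨hfA, k, hk⟩ := key
  exact Submodule.mem_iSup_of_mem k ⟨hfA, hk⟩

/-- the surjection onto `A` -/
noncomputable def phiA : MvPolynomial (Fin n ⊕ Fin n) ℝ →+* AA n hn :=
  (phi n hn).rangeRestrict.toRingHom

lemma phiA_surj : Function.Surjective (phiA n hn) := (phi n hn).rangeRestrict_surjective

lemma phiA_coe (p : MvPolynomial (Fin n ⊕ Fin n) ℝ) :
    ((phiA n hn p : AA n hn) : Laurent ℝ (n + n)) = phi n hn p := rfl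

/-- transvections as elements of `GL` -/
def tv {B : Type*} [CommRing B] {i j : Fin n} (h : i ≠ j) (c : B) : GL (Fin n) B where
  val := Matrix.transvection i j c
  inv := Matrix.transvection i j (-c)
  val_inv := by rw [Matrix.transvection_mul_transvection_same _ _ h]; simp
  inv_val := by rw [Matrix.transvection_mul_transvection_same _ _ h]; simp

lemma elem_lifts : elemGroup n (AA n hn) ≤
    (Matrix.GeneralLinearGroup.map (n := Fin n) (phiA n hn)).range := by
  rw [elemGroup, Subgroup.closure_le]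
  rintro g ⟨i, j, hij, c, hg⟩
  obtain ⟨p, rfl⟩ := phiA_surj n hn c
  refine ⟨tv n hij p, ?_⟩
  ext a b
  rw [hg]
  simp [tv, Matrix.transvection, Matrix.single, Matrix.one_apply]
  split_ifs <;> simp

/-- evaluation of Laurent polynomials at a point with nonzero coordinates -/
noncomputable def ev {m : ℕ} (u : Fin m → ℝ) (hu : ∀ i, u i ≠ 0) : Laurent ℝ m →ₐ[ℝ] ℝ :=
  AddMonoidAlgebra.lift ℝ ℝ (Fin m → ℤ)
    { toFun := fun a => ∏ i, u i ^ (Multiplicative.toAdd a i)
      map_one' := by simp
      map_mul' := by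
        intro a b
        rw [← Finset.prod_mul_distrib]
        refine Finset.prod_congr rfl fun i _ => ?_
        rw [toAdd_mul, Pi.add_apply, zpow_add₀ (hu i)] }

lemma ev_mono {m : ℕ} (u : Fin m → ℝ) (hu : ∀ i, u i ≠ 0) (a : Fin m → ℤ) :
    ev u hu (mono ℝ a) = ∏ i, u i ^ a i := by
  rw [ev, mono, AddMonoidAlgebra.lift_single]
  simp

lemma ev_mono_single {m : ℕ} (u : Fin m → ℝ) (hu : ∀ i, u i ≠ 0) (i : Fin m) (c : ℤ) :
    ev u hu (mono ℝ (Pi.single i c)) = u i ^ c := by
  classical
  rw [ev_mono, Finset.prod_eq_single i]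
  · simp
  · intro j _ hj
    simp [Pi.single_eq_of_ne hj]
  · simp

/-- evaluating `phi` at a point `(p, 1/y)` gives evaluation at `(p, y)` when `p · y = 1` -/
lemma ev_phi (p y : Fin n → ℝ) (hp : ∀ i, p i ≠ 0) (hy : ∀ i, y i ≠ 0) (hpy : ∑ i, p i * y i = 1)
    (P : MvPolynomial (Fin n ⊕ Fin n) ℝ) :
    ev (Fin.append p (fun i => (y i)⁻¹)) (by
      intro i
      refine Fin.addCases (fun i => ?_) (fun i => ?_) i
      · rw [Fin.append_left]; exact hp i
      · rw [Fin.append_right]; exact inv_ne_zero (hy i)) (phi n hn P) = MvPolynomial.eval (Sum.elim p y) P := by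
  classical
  have hu : ∀ i, Fin.append p (fun i => (y i)⁻¹) i ≠ 0 := by
      intro i
      refine Fin.addCases (fun i => ?_) (fun i => ?_) i
      · rw [Fin.append_left]; exact hp i
      · rw [Fin.append_right]; exact inv_ne_zero (hy i)
  have hx : ∀ i, ev (Fin.append p (fun i => (y i)⁻¹)) hu (xx n i) = p i := by
    intro i
    rw [xx, ev_mono_single]; simp
  have hy' : ∀ i, ev (Fin.append p (fun i => (y i)⁻¹)) hu (yy' n i) = y i := by
    intro i
    rw [yy', ev_mono_single, Fin.append_right, zpow_neg_one, inv_inv]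
  have hyy : ∀ i, ev (Fin.append p (fun i => (y i)⁻¹)) hu (yy n hn i) = y i := by
    intro i
    rw [yy]
    split_ifs with h
    · rw [map_mul, map_sub, map_one, map_sum, ev_mono_single]
      simp only [map_mul, hx, hy']
      rw [← Finset.add_sum_erase _ _ (Finset.mem_univ (⟨0, hn⟩ : Fin n))] at hpy
      have e : 1 - ∑ j ∈ Finset.univ.erase (⟨0, hn⟩ : Fin n), p j * y j = p i * y i := by
        rw [h]; linarith
      rw [e]
      simp only [Fin.append_left]
      rw [zpow_neg_one]
      field_simp [hp i]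
    · exact hy' i
  have : ((ev (Fin.append p (fun i => (y i)⁻¹)) hu).comp (phi n hn)) =
      MvPolynomial.aeval (Sum.elim p y) := by
    refine MvPolynomial.algHom_ext fun s => ?_
    rcases s with i | i
    · simp [phi, hx]
    · simp [phi, hyy]
  have h2 := congrArg (fun F => F P) this
  simpa [MvPolynomial.aeval_eq_eval] using h2

/-- the sphere identity: if a matrix over the polynomial ring maps to a matrix over `A` with
first row `x`, then its first row evaluated at `(p, p)` is `p`, for unit vectors `p`. -/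
lemma sphere_id (P : Fin n → MvPolynomial (Fin n ⊕ Fin n) ℝ) (hP : ∀ j, phi n hn (P j) = xx n j)
    (p : Fin n → ℝ) (hp : ∑ i, p i ^ 2 = 1) (j : Fin n) :
    MvPolynomial.eval (Sum.elim p p) (P j) = p j := by
  set pt : ℝ → Fin n → ℝ := fun t i => p i + t with hpt
  set yt : ℝ → Fin n → ℝ := fun t i => pt t i / ∑ k, pt t k ^ 2 with hyt
  set H : ℝ → ℝ := fun t => MvPolynomial.eval (Sum.elim (pt t) (yt t)) (P j) - pt t j with hH
  have h0 : pt 0 = p := by funext i; simp [hpt]
  have h0' : yt 0 = p := by funext i; simp only [hyt, h0, hp, div_one]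
  have hcont : ContinuousAt H 0 := by
    have hc1 : ∀ i, ContinuousAt (fun t => pt t i) 0 := fun i => by
      simp only [hpt]; fun_prop
    have hc2 : ContinuousAt (fun t => ∑ k, pt t k ^ 2) 0 := by
      simp only [hpt]; fun_prop
    have hc3 : ∀ i, ContinuousAt (fun t => yt t i) 0 := fun i => by
      simp only [hyt]
      refine (hc1 i).div hc2 ?_
      rw [h0, hp]; exact one_ne_zero
    have hc4 : ContinuousAt (fun t => (Sum.elim (pt t) (yt t) : Fin n ⊕ Fin n → ℝ)) 0 := by
      rw [continuousAt_pi]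
      rintro (i | i)
      · exact hc1 i
      · exact hc3 i
    have hc5 : ContinuousAt (fun t => MvPolynomial.eval (Sum.elim (pt t) (yt t)) (P j)) 0 :=
      ContinuousAt.comp (g := fun x => MvPolynomial.eval x (P j))
        (MvPolynomial.continuous_eval (P j)).continuousAt hc4
    exact hc5.sub (hc1 j)
  have hev : ∀ᶠ t in nhdsWithin (0 : ℝ) {0}ᶜ, H t = 0 := by
    have h1 : ∀ᶠ t in nhdsWithin (0 : ℝ) {0}ᶜ, ∀ i, pt t i ≠ 0 := by
      rw [Filter.eventually_all]
      intro i
      by_cases hi : p i = 0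
      · filter_upwards [self_mem_nhdsWithin] with t ht
        simp only [hpt, hi, zero_add]
        exact ht
      · have : ContinuousAt (fun t => pt t i) 0 := by simp only [hpt]; fun_prop
        have h2 : ∀ᶠ t in nhds (0 : ℝ), pt t i ≠ 0 :=
          this.eventually_ne (by rw [h0]; exact hi)
        exact h2.filter_mono nhdsWithin_le_nhds
    filter_upwards [h1] with t ht
    have hs : 0 < ∑ k, pt t k ^ 2 := by
      have h2 : 0 < pt t j ^ 2 := by have := ht j; positivity
      exact lt_of_lt_of_le h2 (Finset.single_le_sum (f := fun k => pt t k ^ 2)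
        (fun k _ => sq_nonneg _) (Finset.mem_univ j))
    have hy : ∀ i, yt t i ≠ 0 := fun i => div_ne_zero (ht i) hs.ne'
    have hpy : ∑ i, pt t i * yt t i = 1 := by
      simp only [hyt]
      have : ∀ i, pt t i * (pt t i / ∑ k, pt t k ^ 2) = pt t i ^ 2 / ∑ k, pt t k ^ 2 := by
        intro i; ring
      rw [Finset.sum_congr rfl fun i _ => this i, ← Finset.sum_div, div_self hs.ne']
    have key := ev_phi n hn (pt t) (yt t) ht hy hpy (P j)
    rw [hP j, xx, ev_mono_single, Fin.append_left, zpow_one] at key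
    simp only [hH]
    rw [← key, sub_self]
  have hlim : H 0 = 0 := by
    have h1 : Filter.Tendsto H (nhdsWithin (0 : ℝ) {0}ᶜ) (nhds (H 0)) :=
      hcont.tendsto.mono_left nhdsWithin_le_nhds
    have h2 : Filter.Tendsto H (nhdsWithin (0 : ℝ) {0}ᶜ) (nhds 0) :=
      tendsto_const_nhds.congr' (by filter_upwards [hev] with t ht; exact ht.symm)
    exact tendsto_nhds_unique h1 h2
  simp only [hH, h0, h0'] at hlim
  linarith

/-- topological core: a nowhere vanishing continuous map cannot be the identity on the sphere -/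
lemma no_ext (G : EuclideanSpace ℝ (Fin n) → EuclideanSpace ℝ (Fin n)) (hG : Continuous G)
    (hne : ∀ q, G q ≠ 0) (hid : ∀ q, ‖q‖ = 1 → G q = q) : False := by
  set pr : EuclideanSpace ℝ (Fin n) → EuclideanSpace ℝ (Fin n) :=
    fun q => (max 1 ‖q‖)⁻¹ • q with hpr
  have hprc : Continuous pr := by
    refine Continuous.smul (Continuous.inv₀ (continuous_const.max continuous_norm) fun q => ?_)
      continuous_id
    have : (1 : ℝ) ≤ max 1 ‖q‖ := le_max_left _ _
    linarith
  set f : EuclideanSpace ℝ (Fin n) → EuclideanSpace ℝ (Fin n) :=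
    fun q => -(‖G (pr q)‖⁻¹ • G (pr q)) with hf
  have hfc : Continuous f := by
    refine Continuous.neg (Continuous.smul (Continuous.inv₀ (hG.comp hprc).norm fun q => ?_)
      (hG.comp hprc))
    exact norm_ne_zero_iff.2 (hne _)
  have hfn : ∀ q, ‖f q‖ = 1 := by
    intro q
    simp only [hf, norm_neg, norm_smul, norm_inv, norm_norm]
    exact inv_mul_cancel₀ (norm_ne_zero_iff.2 (hne _))
  obtain ⟨q, hq⟩ := Pool.Agent.Helper608.Brouwer.brouwer f hfc 1 (fun x => (hfn x).le)
  have hq1 : ‖q‖ = 1 := by rw [← hq]; exact hfn q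
  have hprq : pr q = q := by simp [hpr, hq1]
  have hfq : f q = -q := by
    simp only [hf, hprq, hid q hq1, hq1, inv_one, one_smul]
  rw [hfq] at hq
  have hq0 : q = 0 := by
    have : (2 : ℝ) • q = 0 := by
      rw [two_smul]
      nth_rewrite 1 [← hq]
      simp
    simpa using this
  rw [hq0] at hq1
  simp at hq1

end construction

/-- **Theorem.** The field `ℝ` is Noetherian of dimension `0`, and for every `n ≥ 3` there are a
graded subalgebra `A` of the Laurent polynomial ring over `ℝ` in `2n` variables of degree one and a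
unimodular row over `A`, homogeneous of degree one, that is not in `e₁ E_n(A)`. -/
theorem result :
    IsNoetherianRing ℝ ∧ ringKrullDim ℝ = 0 ∧
    ∀ n : ℕ, 3 ≤ n → ∀ hn : 0 < n,
      ∃ A : Subalgebra ℝ (Laurent ℝ (n + n)), IsGraded A ∧
        ∃ v : Fin n → A, IsHomogRow 1 v ∧ IsUnimodular v ∧ ¬ IsElemRow hn v := by
  refine ⟨inferInstance, by simp, fun n _ hn => ?_⟩
  refine ⟨AA n hn, AA_graded n hn, fun i => phiA n hn (X (Sum.inl i)), ?_, ?_, ?_⟩
  · intro i
    rw [phiA_coe, phi, aeval_X]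
    exact xx_mem n i
  · refine ⟨fun i => phiA n hn (X (Sum.inr i)), ?_⟩
    apply Subtype.ext
    have := sum_xy n hn
    simpa [phiA_coe, phi] using this
  · rintro ⟨g, hg, hrow⟩
    obtain ⟨M, rfl⟩ := elem_lifts n hn hg
    have hrow' : ∀ j, phi n hn ((M : Matrix (Fin n) (Fin n) _) ⟨0, hn⟩ j) = xx n j := by
      intro j
      have h1 := congrFun hrow j
      have h2 := congrArg (Subtype.val) h1
      rw [phiA_coe, phi, aeval_X] at h2
      exact h2
    set P : Fin n → MvPolynomial (Fin n ⊕ Fin n) ℝ :=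
      fun j => (M : Matrix (Fin n) (Fin n) _) ⟨0, hn⟩ j with hP
    let G : EuclideanSpace ℝ (Fin n) → EuclideanSpace ℝ (Fin n) := fun q =>
      WithLp.toLp 2 (fun j => MvPolynomial.eval (Sum.elim q.ofLp q.ofLp) (P j))
    refine no_ext n G ?_ ?_ ?_
    · refine (PiLp.continuous_toLp 2 _).comp (continuous_pi fun j => ?_)
      refine (MvPolynomial.continuous_eval (P j)).comp (continuous_pi ?_)
      rintro (i | i)
      · exact (continuous_apply i).comp (PiLp.continuous_ofLp 2 _)
      · exact (continuous_apply i).comp (PiLp.continuous_ofLp 2 _)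
    · intro q hq
      -- the evaluated matrix is invertible
      let M' : GL (Fin n) ℝ := Matrix.GeneralLinearGroup.map
        (MvPolynomial.eval (Sum.elim q.ofLp q.ofLp)) M
      have h1 : ∀ j, (M' : Matrix (Fin n) (Fin n) ℝ) ⟨0, hn⟩ j = 0 := by
        intro j
        have := congrFun (congrArg WithLp.ofLp hq) j
        simpa [G, M', P] using this
      have h2 : (M' : Matrix (Fin n) (Fin n) ℝ).det = 0 :=
        Matrix.det_eq_zero_of_row_eq_zero ⟨0, hn⟩ h1
      have h3 : IsUnit (M' : Matrix (Fin n) (Fin n) ℝ).det :=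
        (Matrix.isUnit_iff_isUnit_det _).1 M'.isUnit
      rw [h2] at h3
      exact not_isUnit_zero h3
    · intro q hq
      have hq2 : ∑ i, q.ofLp i ^ 2 = 1 := by
        rw [EuclideanSpace.norm_eq] at hq
        have := congrArg (fun x => x ^ 2) hq
        simp only at this
        rw [Real.sq_sqrt (Finset.sum_nonneg fun i _ => by positivity)] at this
        simpa using this
      ext j
      exact sphere_id n hn P hrow' q.ofLp hq2 j

end Pool.Agent.Results.MP_aa4be7_al.UniversalRow
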